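import Pool.Agent.Lib.MP_16ef92_ag.TL.Acy

/-! Cohomology commutes with ind-etale limits. -/

set_option autoImplicit false
set_option linter.unusedSectionVars false
set_option linter.unusedVariables false

namespace Pool.Agent.Lib.MP_16ef92_ag.RS

open FA (IE Stage AC TR toTR evTR Cut cut cutLift)

noncomputable section

variable [Bg] {R R' S S' T V W : Type} [CommRing R] [CommRing R'] [CommRing S] [CommRing S']
  [CommRing T] [CommRing V] [CommRing W]

theorem HR_can (q : ℕ) (F : Sys R) {a : R →+* V} {a' : R →+* W} (b : V →+* W) (h : b.comp a = a')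
    (ξ : H q F) : HR q F b h (Hmap q (F.can a) ξ) = Hmap q (F.can a') ξ :=
  Hmap_comp_of q _ _ _ h (fun _ _ _ => rfl) ξ

theorem HR_pb (q : ℕ) {F G : Sys R} (m : Hom F G) {a : R →+* V} {a' : R →+* W} (b : V →+* W)
    (h : b.comp a = a') (ξ : HH q F a) :
    HR q G b h (Hmap q (m.pb a) ξ) = Hmap q (m.pb a') (HR q F b h ξ) := by
  subst h
  exact Hmap_sq q (m.pb a) (G.rm b rfl) (F.rm b rfl) (m.pb (b.comp a)) rfl (fun _ _ _ => rfl) ξ

theorem HR_del {F₁ F₂ F₃ : Sys R} {i : Hom F₁ F₂} {p : Hom F₂ F₃} (hs : SES i p) (q : ℕ)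
    {a : R →+* V} {a' : R →+* W} (b : V →+* W) (h : b.comp a = a') (ξ : HH q F₃ a) :
    HR (q + 1) F₁ b h ((hs.pb a).del q ξ) = (hs.pb a').del q (HR q F₃ b h ξ) := by
  subst h
  exact (hs.pb a).del_nat (hs.pb _) _ (F₂.rm b rfl) _ (fun _ _ _ => rfl) (fun _ _ _ => rfl) q ξ

/-- The class `ξ` dies after restriction along `b`. -/
def Dz {q : ℕ} {F : Sys R} {a : R →+* V} (ξ : HH q F a) (b : V →+* W) : Prop :=
  HR q F b rfl ξ = 0

theorem dz_iff {q : ℕ} {F : Sys R} {a : R →+* V} {a' : R →+* W} {ξ : HH q F a} {b : V →+* W}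
    (h : b.comp a = a') : HR q F b h ξ = 0 ↔ Dz ξ b := by
  subst h
  rfl

theorem dz_HR {q : ℕ} {F : Sys R} {a : R →+* V} {a' : R →+* W} {ξ : HH q F a} {b : V →+* W}
    (h : b.comp a = a') (w : W →+* T) : Dz (HR q F b h ξ) w ↔ Dz ξ (w.comp b) := by
  subst h
  rw [Dz, HR_HR q F b rfl w rfl (w.comp b) rfl rfl]
  rfl

theorem Dz.comp {q : ℕ} {F : Sys R} {a : R →+* V} {ξ : HH q F a} {b : V →+* W} (h : Dz ξ b)
    (w : W →+* T) : Dz ξ (w.comp b) := by
  rw [← dz_HR rfl, h, Dz, map_zero]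

theorem H_lim {g : R →+* R'} (hg : IE g) (hR : Good R) (q : ℕ) (F : Sys R) :
    (∀ ξ : HH q F g, ∃ (U : Stage g) (η : HH q F U.a), HR q F U.d U.comm η = ξ) ∧
    ∀ (U : Stage g) (η : HH q F U.a), HR q F U.d U.comm η = 0 →
      ∃ (X : Stage g) (b : U.W →+* X.W) (h : U.Le X b), HR q F b h.1 η = 0 := by
  induction q generalizing F with
  | zero =>
    refine ⟨fun ξ => ?_, fun U η h => ?_⟩
    · obtain ⟨U, t, h1, h2⟩ := F.ie_lift hg (hR.ie hg) (s := ξ.1) ξ.2
      exact ⟨U, ⟨t, h1⟩, Subtype.ext (funext h2)⟩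
    · obtain ⟨X, b, h1, h2⟩ := F.ie_kill hg (hR.ie hg) U (t := η.1) η.2
        (congrFun (congrArg Subtype.val h))
      exact ⟨X, b, h1, Subtype.ext (funext h2)⟩
  | succ q ih =>
    have hs := ses_hull F
    refine ⟨fun ξ => ?_, fun U η h => ?_⟩
    · obtain ⟨ζ, rfl⟩ := ((hs.pb g).del_range q ξ).1 (H_hull hR F hg q _)
      obtain ⟨U, ζ₀, rfl⟩ := (ih _).1 ζ
      exact ⟨U, (hs.pb U.a).del q ζ₀, HR_del hs q _ _ _⟩
    · obtain ⟨ζ, rfl⟩ := ((hs.pb U.a).del_range q η).1 (H_hull hR F (IE.of_etale U.et) q _)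
      rw [HR_del hs] at h
      obtain ⟨θ, hθ⟩ := ((hs.pb g).del_ker q _).1 h
      obtain ⟨U', θ₀, rfl⟩ := (ih _).1 θ
      obtain ⟨X, b, b', hb, hb'⟩ := U.exists_ub₂ U'
      obtain ⟨Y, c, hc, h0⟩ := (ih _).2 X
        (HR q _ b hb.1 ζ - Hmap q ((toHull F).pr.pb X.a) (HR q _ b' hb'.1 θ₀)) (by
          rw [map_sub, HR_pb, HR_HR q _ b hb.1 X.d X.comm U.d U.comm hb.2,
            HR_HR q _ b' hb'.1 X.d X.comm U'.d U'.comm hb'.2, hθ, sub_self])
      refine ⟨Y, c.comp b, hb.trans hc, ?_⟩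
      rw [map_sub, sub_eq_zero, HR_pb, HR_HR q _ b hb.1 c hc.1 _ (hb.trans hc).1 rfl] at h0
      rw [HR_del hs, h0]
      exact ((hs.pb Y.a).del_ker q _).2 ⟨_, rfl⟩

section

variable {g : R →+* R'}

/-- Every class over the limit comes from a stage. -/
theorem H_lift (hg : IE g) (hR : Good R) (q : ℕ) (F : Sys R) (ξ : HH q F g) :
    ∃ (U : Stage g) (η : HH q F U.a), HR q F U.d U.comm η = ξ := (H_lim hg hR q F).1 ξ

/-- A class over a stage that dies in the limit dies at a later stage. -/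
theorem H_kill_le (hg : IE g) (hR : Good R) (q : ℕ) (F : Sys R) (U : Stage g) (η : HH q F U.a)
    (h : HR q F U.d U.comm η = 0) :
    ∃ (X : Stage g) (b : U.W →+* X.W) (h : U.Le X b), HR q F b h.1 η = 0 :=
  (H_lim hg hR q F).2 U η h

theorem H_kill (hg : IE g) (hR : Good R) (q : ℕ) (F : Sys R) (η : H q F)
    (h : Hmap q (F.can g) η = 0) : ∃ X : Stage g, Hmap q (F.can X.a) η = 0 := by
  obtain ⟨X, b, h1, h2⟩ := H_kill_le hg hR q F (Stage.bot g) (Hmap q (F.can _) η)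
    ((HR_can q F _ _ η).trans h)
  exact ⟨X, (HR_can q F b h1.1 η).symm.trans h2⟩

/-- If the classes of all cofinal stages vanish, so do the classes of the limit. -/
theorem H_ie_zero (hg : IE g) (hR : Good R) (q : ℕ) (F : Sys R)
    (h : ∀ (U : Stage g) (η : HH q F U.a), HR q F U.d U.comm η = 0) (ξ : HH q F g) : ξ = 0 := by
  obtain ⟨U, η, rfl⟩ := H_lift hg hR q F ξ
  exact h U η

/-- The Godement system stays acyclic after an ind-etale base change. -/
theorem H_J_ie (hg : IE g) (hR : Good R) (q : ℕ) (F : Sys R) (ξ : HH (q + 1) (J F) g) : ξ = 0 := by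
  refine H_ie_zero hg hR _ _ (fun U η => ?_) ξ
  rw [(Hmap_bij (q + 1) (F.can U.a).jm.toHom (jm_can_bij F U.et).1 (jm_can_bij F U.et).2).1
    ((H_J q _ (Hmap (q + 1) _ η)).trans (map_zero _).symm), map_zero]

variable {f : R →+* S} {i : S →+* S'} {j : R' →+* S'}

/-- The same after a base change. -/
theorem H_kill_po (hg : IE g) (h : FA.PO f g i j) (hS : Good S) (q : ℕ) (F : Sys S) (η : H q F)
    (h0 : Hmap q (F.can i) η = 0) : ∃ U : Stage g, ∀ (Z : Type) [CommRing Z] (i' : S →+* Z)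
      (j' : U.W →+* Z), i'.comp f = j'.comp U.a → Hmap q (F.can i') η = 0 := by
  obtain ⟨Y, hY⟩ := H_kill (hg.baseChange h) hS q F η h0
  obtain ⟨X, b, U, j₁, hb, k1, -⟩ := hg.cofinal_po h Y
  refine ⟨U, fun Z _ i' j' e => ?_⟩
  obtain ⟨w, w1, -⟩ := k1.ex Z i' j' e
  rw [← HR_can q F (w.comp b) (by rw [RingHom.comp_assoc, hb.1, w1]), hY, map_zero]

theorem H_lift_po (hg : IE g) (h : FA.PO f g i j) (hS : Good S) (q : ℕ) (F : Sys S)
    (ξ : HH q F i) : ∃ (X : Stage i) (U : Stage g) (j' : U.W →+* X.W) (η : HH q F X.a),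
      FA.PO f U.a X.a j' ∧ X.d.comp j' = j.comp U.d ∧ HR q F X.d X.comm η = ξ := by
  obtain ⟨Y, η, rfl⟩ := H_lift (hg.baseChange h) hS q F ξ
  obtain ⟨X, b, U, j₁, hb, k1, k2⟩ := hg.cofinal_po h Y
  exact ⟨X, U, j₁, HR q F b hb.1 η, k1, k2, HR_HR q F _ _ _ _ _ _ hb.2 η⟩

end

section Fib

variable {f : T →+* S}

/-- A class that dies on a fibre dies on a clopen neighbourhood of it. -/
theorem fib_loc (hT : AC T) (hS : Good S) {K : Type} [Field K] {π : T →+* K} (hπ : IE π)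
    {i : S →+* S'} {j : K →+* S'} (h : FA.PO f π i j) (q : ℕ) (F : Sys S) (ξ : H q F)
    (h0 : Hmap q (F.can i) ξ = 0) :
    ∃ e : T, IsIdempotentElem e ∧ π e = 1 ∧ Hmap q (F.can (cut (f e))) ξ = 0 := by
  obtain ⟨U, hU⟩ := H_kill_po hπ h hS q F ξ h0
  obtain ⟨e, h1, h2, s, h3, -⟩ := hT.sec U.et U.d
  refine ⟨e, h1, U.comm ▸ h2, hU _ _
    ((cutLift ((cut (f e)).comp f) (FA.cut_self _)).comp s) ?_⟩
  rw [RingHom.comp_assoc, h3]
  rfl

/-- A class that dies on the members of a clopen cover of the base is zero. -/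
theorem clopen_glue (hG : Good T) (q : ℕ) (F : Sys S) (ξ : H q F)
    (h : ∀ x : Pnt T, ∃ e, IsIdempotentElem e ∧ x e = 1 ∧ Hmap q (F.can (cut (f e))) ξ = 0) :
    ξ = 0 := by
  choose e h1 h2 h3 using h
  obtain ⟨n, p, ε, k1, k2⟩ := hG.partition e h1 h2
  refine (H_pi (fun k => cut (f (ε k))) (k1.map f).bijective_pi q F).1 (funext fun k => ?_)
  have : f (ε k) * f (e (p k)) = f (ε k) := by rw [← map_mul, k2]
  change Hmap q (F.can _) ξ = Hmap q (F.can _) 0
  rw [← HR_can q F (cutLift (cut (f (ε k))) (cut_one this)) (FA.cutLift_comp _ _), h3, map_zero,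
    map_zero]

/-- The fibre of `S` over a residue field of `T`. -/
structure Fib (f : T →+* S) : Type 1 where
  K : Type
  [fld : Field K]
  cl : IsAlgClosed K
  π : T →+* K
  sur : Function.Surjective π
  ie : IE π
  gd : Good K

attribute [instance] Fib.fld Fib.cl

/-- The ring of the fibre. -/
abbrev Fib.A (φ : Fib f) : Type := Ten f φ.π

/-- The restriction to the fibre. -/
abbrev Fib.i (φ : Fib f) : S →+* φ.A := Ten.inl f φ.π

/-- The structure map of the fibre. -/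
abbrev Fib.j (φ : Fib f) : φ.K →+* φ.A := Ten.inr f φ.π

theorem exists_fib (hT : AC T) (hG : Good T) (f : T →+* S) (x : Pnt T) :
    ∃ (φ : Fib f) (ι : Pnt φ.K), ι.comp φ.π = x := by
  obtain ⟨K, _, π, ι, h1, h2, h3, h4⟩ := hT.exists_field x
  exact ⟨⟨K, h3, π, h1, h4, hG.ie h4⟩, ι, h2⟩

/-- A class that dies on all fibres is zero. -/
theorem fib_zero (hT : AC T) (hG : Good T) (hS : Good S) (q : ℕ) (F : Sys S) (ξ : H q F)
    (h : ∀ φ : Fib f, Hmap q (F.can φ.i) ξ = 0) : ξ = 0 := by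
  refine clopen_glue (f := f) hG q F ξ fun x => ?_
  obtain ⟨φ, ι, rfl⟩ := exists_fib hT hG f x
  obtain ⟨e, h1, h2, h3⟩ := fib_loc hT hS φ.ie (Ten.po f φ.π) q F ξ (h φ)
  exact ⟨e, h1, by rw [RingHom.comp_apply, h2, map_one], h3⟩

open Classical in
/-- Extension by zero from a clopen part. -/
theorem Sys.cut_ext (N : Sys T) {e : T} (he : IsIdempotentElem e) {t : Pnt (Cut e) → N.A}
    (ht : t ∈ N.S (cut e)) : ∃ s ∈ Z0 N, (∀ z : Pnt (Cut e), s (z.comp (cut e)) = t z) ∧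
      ∀ x : Pnt T, x e ≠ 1 → s x = 0 := by
  let s : Pnt T → N.A := fun x => if h : x e = 1 then t (cutLift x h) else 0
  have h1 : ∀ z : Pnt (Cut e), s (z.comp (cut e)) = t z := fun z => by
    have : z.comp (cut e) e = 1 := by rw [RingHom.comp_apply, FA.cut_self, map_one]
    exact (dif_pos this).trans (congrArg t (Ideal.Quotient.ringHom_ext rfl))
  refine ⟨s, N.loc fun x => ?_, h1, fun x h => dif_neg h⟩
  by_cases h : x e = 1
  · exact ⟨_, _, cut e, cutLift x h, FA.etale_cut he, rfl, (funext h1 : rs (cut e) s = t) ▸ ht⟩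
  · have h0 : x e = 0 := by_contra fun h0 => h (pnt_idem he x h0)
    refine ⟨_, _, cut (1 - e), cutLift x (by rw [map_sub, map_one, h0, sub_zero]),
      FA.etale_cut he.one_sub, rfl, ?_⟩
    have : rs (cut (1 - e)) s = 0 := funext fun z => dif_neg fun h1 => by
      have := congrArg z (FA.cut_self (1 - e))
      rw [map_sub, map_sub, map_one, map_one, sub_eq_self] at this
      exact one_ne_zero (h1.symm.trans this)
    exact this ▸ zero_mem _

/-- Every element of a stalk is the value of a global section. -/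
theorem ac_stalk (hT : AC T) (N : Sys T) (x : Pnt T) {m : N.A} (hm : m ∈ N.M x) :
    ∃ s : Z0 N, s.1 x = m := by
  obtain ⟨W, _, c, y, t, hc, rfl, ht, rfl⟩ := N.stalk x m hm
  obtain ⟨e, h1, h2, σ, h3, h4⟩ := hT.sec hc y
  obtain ⟨s, hs, h5, -⟩ := N.cut_ext h1 (N.res' σ h3 ht)
  exact ⟨⟨s, hs⟩, (h5 (cutLift (y.comp c) h2)).trans (congrArg t h4)⟩

/-- Every section over a residue field is the restriction of a global section. -/
theorem fib_sec (hT : AC T) (φ : Fib f) (N : Sys T) (t : Z0 (N.pb φ.π)) :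
    ∃ s : Z0 N, (N.can φ.π).app s = t := by
  obtain ⟨U, u, h1, h2⟩ := N.ie_lift φ.ie φ.gd (s := t.1) t.2
  obtain ⟨e, k1, k2, σ, k3, k4⟩ := hT.sec U.et U.d
  obtain ⟨s, hs, h5, -⟩ := N.cut_ext k1 (N.res' σ k3 h1)
  refine ⟨⟨s, hs⟩, Subtype.ext (funext fun y => ?_)⟩
  have := h5 (y.comp (cutLift (U.d.comp U.a) k2))
  rw [rs_apply, RingHom.comp_assoc σ, k4, h2, RingHom.comp_assoc, FA.cutLift_comp, U.comm] at this
  exact this

/-- A local map from sections to classes that is onto on all fibres is onto. -/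
theorem fib_surj (hT : AC T) (hG : Good T) (hS : Good S) (q : ℕ) (F : Sys S) (N : Sys T)
    (Φ : Z0 N →+ H q F)
    (h1 : ∀ (e : T) (s : Z0 N), IsIdempotentElem e → (∀ z : Pnt T, z e = 1 → s.1 z = 0) →
      Hmap q (F.can (cut (f e))) (Φ s) = 0)
    (ξ : H q F) (h2 : ∀ φ : Fib f, ∃ s, Hmap q (F.can φ.i) (Φ s) = Hmap q (F.can φ.i) ξ) :
    ∃ s, Φ s = ξ := by
  have a : ∀ x : Pnt T, ∃ (s : Z0 N) (e : T), IsIdempotentElem e ∧ x e = 1 ∧
      Hmap q (F.can (cut (f e))) (Φ s - ξ) = 0 := fun x => by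
    obtain ⟨φ, ι, rfl⟩ := exists_fib hT hG f x
    obtain ⟨s, hs⟩ := h2 φ
    obtain ⟨e, k1, k2, k3⟩ := fib_loc hT hS φ.ie (Ten.po f φ.π) q F (Φ s - ξ)
      (by rw [map_sub, hs, sub_self])
    exact ⟨s, e, k1, by rw [RingHom.comp_apply, k2, map_one], k3⟩
  choose s e a1 a2 a3 using a
  obtain ⟨n, p, ε, k1, k2⟩ := hG.partition e a1 a2
  choose t ht t1 t2 using fun k => N.cut_ext (k1.idem k) (N.res (cut (ε k)) (s (p k)).2)
  refine ⟨∑ k, ⟨t k, ht k⟩, sub_eq_zero.1 (clopen_glue (f := f) hG q F _ fun x => ?_)⟩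
  obtain ⟨k, -, hk⟩ := Finset.exists_ne_zero_of_sum_ne_zero (s := Finset.univ)
    (f := fun k => x (ε k)) (by rw [← map_sum, k1.complete, map_one]; exact one_ne_zero)
  refine ⟨ε k, k1.idem k, pnt_idem (k1.idem k) x hk, ?_⟩
  have e1 : f (ε k) * f (e (p k)) = f (ε k) := by rw [← map_mul, k2]
  have e2 : Hmap q (F.can (cut (f (ε k)))) (Φ (s (p k)) - ξ) = 0 := by
    rw [← HR_can q F (cutLift (cut (f (ε k))) (cut_one e1)) (FA.cutLift_comp _ _), a3, map_zero]
  have e3 := h1 (ε k) (∑ k, ⟨t k, ht k⟩ - s (p k)) (k1.idem k) fun z hz => by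
    rw [AddSubgroup.coe_sub, AddSubgroup.val_finsetSum, Pi.sub_apply, Finset.sum_apply,
      Finset.sum_eq_single k (fun j _ hj => t2 j z fun h => ?_) (by simp), sub_eq_zero]
    · exact t1 k (cutLift z hz)
    · have := congrArg z (k1.ortho hj)
      rw [map_mul, h, hz, map_zero, one_mul] at this
      exact one_ne_zero this
  rw [map_sub, map_sub, sub_eq_zero] at e3
  rw [map_sub, e3, ← map_sub, e2]

/-- Vanishing of a higher direct image can be checked on the fibres. -/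
theorem dies_of_fib (hT : AC T) (hG : Good T) (hS : Good S) (g : R →+* S) (F : Sys S) (q : ℕ)
    (h : ∀ φ : Fib f, Dies (φ.i.comp g) (F.pb φ.i) q) : Dies g F q := by
  intro W _ c y ξ hc
  have a : ∀ x : Pnt T, ∃ (U : Stage y) (e : T), IsIdempotentElem e ∧ x e = 1 ∧
      Dz ξ ((cut (Ten.inr (U.a.comp c) g (f e))).comp (Ten.map g U.a rfl)) := fun x => by
    obtain ⟨φ, ι, rfl⟩ := exists_fib hT hG f x
    obtain ⟨W', _, d, z, hd, hz, h0⟩ := h φ W c y (HR (q + 1) F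
      (a' := (Ten.inr c (φ.i.comp g)).comp φ.i) (Ten.mapR c φ.i rfl) (Ten.mapR_inr ..) ξ) hc
    have hP : FA.PO ((Ten.inr (d.comp c) g).comp f) φ.π (Ten.mapR (d.comp c) φ.i rfl)
        ((Ten.inr (d.comp c) (φ.i.comp g)).comp φ.j) := by
      refine (Ten.po f φ.π).paste ((Ten.po (d.comp c) g).symm.cancel ?_ ?_).symm
      · rw [Ten.mapR_inl]
        exact (Ten.po (d.comp c) (φ.i.comp g)).symm
      · exact (Ten.mapR_inr ..).symm
    have h1 : Dz ξ ((Ten.map (φ.i.comp g) d rfl).comp (Ten.mapR c φ.i rfl)) :=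
      (dz_HR _ _).1 ((dz_iff (F := F) (a := (Ten.inr c (φ.i.comp g)).comp φ.i)
        (a' := (Ten.inr (d.comp c) (φ.i.comp g)).comp φ.i)
        (by rw [← RingHom.comp_assoc, Ten.map_inr])).1 h0)
    have h2 : (Ten.map (φ.i.comp g) d rfl).comp (Ten.mapR c φ.i rfl) =
        (Ten.mapR (d.comp c) φ.i rfl).comp (Ten.map g d rfl) := Ten.hom_ext
      (by rw [RingHom.comp_assoc, RingHom.comp_assoc, Ten.mapR_inl, Ten.map_inl, Ten.map_inl,
        ← RingHom.comp_assoc, Ten.mapR_inl])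
      (by rw [RingHom.comp_assoc, RingHom.comp_assoc, Ten.mapR_inr, Ten.map_inr, Ten.mapR_inr,
        ← RingHom.comp_assoc, Ten.map_inr])
    obtain ⟨e, k1, k2, k3⟩ := fib_loc hT (hS.et (Ten.etale_inr g (et_comp hc hd))) φ.ie hP (q + 1)
      (F.pb (Ten.inr (d.comp c) g)) (HR (q + 1) F (Ten.map g d rfl) (Ten.map_inr g d rfl) ξ)
      ((dz_HR _ _).2 (h2 ▸ h1))
    exact ⟨⟨W', d, z, hd, hz⟩, e, k1, by rw [RingHom.comp_apply, k2, map_one], (dz_HR _ _).1 k3⟩
  choose U e a1 a2 a3 using a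
  obtain ⟨n, p, ε, k1, k2⟩ := hG.partition e a1 a2
  obtain ⟨X, b, hb⟩ := Stage.exists_ub fun k => U (p k)
  refine ⟨X.W, _, X.a, X.d, X.et, X.comm,
    clopen_glue (f := (Ten.inr (X.a.comp c) g).comp f) hG _ _ _ fun x => ?_⟩
  obtain ⟨k, -, hk⟩ := Finset.exists_ne_zero_of_sum_ne_zero (s := Finset.univ)
    (f := fun k => x (ε k)) (by rw [← map_sum, k1.complete, map_one]; exact one_ne_zero)
  refine ⟨ε k, k1.idem k, pnt_idem (k1.idem k) x hk, (dz_HR _ _).2 ?_⟩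
  have hbk : (b k).comp ((U (p k)).a.comp c) = X.a.comp c := by rw [← RingHom.comp_assoc, (hb k).1]
  have e1 : (cut (Ten.inr (X.a.comp c) g (f (ε k)))).comp (Ten.map g (b k) hbk)
      (Ten.inr _ g (f (e (p k)))) = 1 := by
    rw [RingHom.comp_apply, ← RingHom.comp_apply (Ten.map g (b k) hbk), Ten.map_inr]
    exact cut_one (by rw [← map_mul, ← map_mul, k2])
  have e2 : (Ten.map g (b k) hbk).comp (Ten.map g (U (p k)).a rfl) = Ten.map g X.a rfl :=
    Ten.hom_ext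
      (by rw [RingHom.comp_assoc, Ten.map_inl, ← RingHom.comp_assoc, Ten.map_inl, Ten.map_inl,
        RingHom.comp_assoc, (hb k).1])
      (by rw [RingHom.comp_assoc, Ten.map_inr, Ten.map_inr, Ten.map_inr])
  have := (a3 (p k)).comp (cutLift _ e1)
  rwa [← RingHom.comp_assoc, FA.cutLift_comp, RingHom.comp_assoc, e2] at this

end Fib

end

end Pool.Agent.Lib.MP_16ef92_ag.RS
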