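import Pool.Agent.Lib.MP_16ef92_ag.TL.L0
import Pool.Agent.Lib.MP_16ef92_ag.RS.Push

/-! Acyclicity over rings whose local rings are algebraically closed fields, and base change of
direct images along ind-etale maps. -/

set_option autoImplicit false
set_option linter.unusedSectionVars false
set_option linter.unusedVariables false

namespace Pool.Agent.Lib.MP_16ef92_ag.RS

open FA (IE Stage AC TR toTR evTR Cut cut cutLift)

noncomputable section

variable [Bg] {R R' S T T' V W : Type} [CommRing R] [CommRing R'] [CommRing S] [CommRing T]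
  [CommRing T'] [CommRing V] [CommRing W]

theorem pnt_idem {e : T} (he : IsIdempotentElem e) (x : Pnt T) (h : x e ≠ 0) : x e = 1 :=
  (IsIdempotentElem.iff_eq_zero_or_one.1 (he.map x)).resolve_left h

/-- A pointwise clopen cover is refined by a finite partition. -/
theorem Good.partition (hT : Good T) (e : Pnt T → T) (h1 : ∀ x, IsIdempotentElem (e x))
    (h2 : ∀ x : Pnt T, x (e x) = 1) : ∃ (n : ℕ) (p : Fin n → Pnt T) (ε : Fin n → T),
      CompleteOrthogonalIdempotents ε ∧ ∀ k, ε k * e (p k) = ε k := by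
  obtain ⟨s, hs⟩ := hT.fin e fun x => by rw [h2]; exact one_ne_zero
  let p : Fin s.card → Pnt T := fun k => (s.equivFin.symm k).1
  let ε : Fin s.card → T := fun k => e (p k) * ∏ j ∈ Finset.univ.filter (· < k), (1 - e (p j))
  have a1 : ∀ k, ε k * e (p k) = ε k := fun k => by
    simp only [ε]
    linear_combination (∏ j ∈ Finset.univ.filter (· < k), (1 - e (p j))) * (h1 (p k)).eq
  have a2 : ∀ j k, j < k → ε j * ε k = 0 := fun j k h => by
    obtain ⟨c, hc⟩ := Finset.dvd_prod_of_mem (fun j => 1 - e (p j))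
      (show j ∈ Finset.univ.filter (· < k) by simpa using h)
    rw [← a1 j]
    simp only [ε, hc]
    linear_combination (-(e (p j) * ∏ i ∈ Finset.univ.filter (· < j), (1 - e (p i))) * e (p k) * c)
      * (h1 (p j)).eq
  have a3 : ∏ k, (1 - e (p k)) = 0 := by
    have : Ideal.span (e '' s) ≤ RingHom.ker (RingHom.id T) ⊔
        Ideal.torsionOf T T (∏ k, (1 - e (p k))) := by
      refine le_sup_of_le_right (Ideal.span_le.2 ?_)
      rintro _ ⟨x, hx, rfl⟩
      obtain ⟨c, hc⟩ := Finset.dvd_prod_of_mem (fun j => 1 - e (p j))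
        (Finset.mem_univ (s.equivFin ⟨x, hx⟩))
      have hp : p (s.equivFin ⟨x, hx⟩) = x := by simp [p]
      rw [SetLike.mem_coe, Ideal.mem_torsionOf_iff, hc, hp, smul_eq_mul]
      linear_combination (-c) * (h1 x).eq
    rw [hs, (RingHom.injective_iff_ker_eq_bot _).1 Function.injective_id, bot_sup_eq] at this
    simpa using (Ideal.mem_torsionOf_iff _ _).1 (this (Submodule.mem_top (x := (1 : T))))
  have a4 : ∑ k, ε k = 1 := by
    rw [Finset.prod_one_sub_ordered, sub_eq_zero] at a3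
    exact a3.symm
  have a5 : Pairwise fun j k => ε j * ε k = 0 := fun j k h =>
    h.lt_or_gt.elim (a2 j k) fun h => (mul_comm _ _).trans (a2 k j h)
  refine ⟨_, p, ε, ⟨⟨fun k => ?_, a5⟩, a4⟩, a1⟩
  have := congrArg (fun t => ε k * t) a4
  simp only [Finset.mul_sum, mul_one] at this
  rwa [Finset.sum_eq_single k (fun j _ h => a5 h.symm) (by simp)] at this

theorem cut_one {ε e : T} (h : ε * e = ε) : cut ε e = 1 := by
  have := congrArg (cut ε) h
  rwa [map_mul, FA.cut_self, one_mul] at this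

theorem ac_split (hT : AC T) (hG : Good T) {c : T →+* W} (hc : Cov c) :
    ∃ s : W →+* T, s.comp c = RingHom.id T := by
  choose y hy using hc.sur
  choose e h1 h2 s h3 h4 using fun x => hT.sec hc.et (y x)
  obtain ⟨n, p, ε, k1, k2⟩ := hG.partition e h1 fun x => by rw [← h2 x, hy]
  let φ := RingEquiv.ofBijective _ k1.bijective_pi
  refine ⟨φ.symm.toRingHom.comp (RingHom.pi fun k =>
    (cutLift (cut (ε k)) (cut_one (k2 k))).comp (s (p k))), RingHom.ext fun t => ?_⟩
  refine φ.injective ((φ.apply_symm_apply _).trans (funext fun k => ?_))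
  exact congrArg (cutLift (cut (ε k)) (cut_one (k2 k))) (RingHom.congr_fun (h3 (p k)) t)

theorem H_ac (hT : AC T) (hG : Good T) (q : ℕ) (F : Sys T) (ξ : H (q + 1) F) : ξ = 0 :=
  H_of_split hG (fun _ _ _ hc => ac_split hT hG hc) q F ξ

theorem dies_ac (hT : AC T) (hG : Good T) (g : R →+* T) (F : Sys T) (q : ℕ) : Dies g F q :=
  fun W _ c y ξ hc => ⟨W, _, RingHom.id W, y, et_id, rfl, by
    rw [H_ac (hT.etale (Ten.etale_inr g hc)) (hG.et (Ten.etale_inr g hc)) q _ ξ, map_zero]⟩

theorem H_push_ac (hT : AC T) (hG : Good T) (g : R →+* T) (F : Sys T) (q : ℕ)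
    (ξ : H (q + 1) (push g F)) : ξ = 0 :=
  eps_inj (q + 1) F (fun i _ => dies_ac hT hG g F i) ((H_ac hT hG q F _).trans (map_zero _).symm)

section BC

variable {f : R →+* R'} {g : R →+* T} {g' : R' →+* T'} {e : T →+* T'}

theorem push_ie_inj (hf : IE f) (hG : Good T) (h : FA.PO f g g' e) (F : Sys T) :
    ((F.can e).push h.comm.symm).Inj := by
  intro x u hu h0
  obtain ⟨W, _, c, y, s, hc, hy, hs, rfl⟩ := pg_surj _ hu
  have hc' := Ten.etale_inr f hc
  let k : Ten c g →+* Ten (Ten.inr c f) g' := Ten.lift ((Ten.inl _ g').comp (Ten.inl c f))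
    ((Ten.inr _ g').comp e) (by
      rw [RingHom.comp_assoc, Ten.comm, ← RingHom.comp_assoc, Ten.comm, RingHom.comp_assoc, h.comm,
        RingHom.comp_assoc])
  have k1 : k.comp (Ten.inl c g) = (Ten.inl _ g').comp (Ten.inl c f) := Ten.lift_inl ..
  have k2 : k.comp (Ten.inr c g) = (Ten.inr _ g').comp e := Ten.lift_inr ..
  have e1 := (F.can e).push_pg h.comm.symm hc hc' (Ten.inl c f) (Ten.comm c f) (Ten.lift y x hy) hs
    k k1 k2
  rw [Ten.lift_inl, Ten.lift_inr, h0] at e1
  obtain ⟨φ, p1, p2⟩ := (pg_zero (F := F.pb e) hc' _ (F.res' k k2 hs)).1 e1.symm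
  let l := algebraMap (Ten c f) (Localization.Away φ)
  have hi : IE (l.comp (Ten.inl c f)) := (hf.baseChange (Ten.po c f)).comp_etale (et_away φ)
  obtain ⟨B, _, i, j, hB⟩ := FA.exists_po (Ten.inl c g) (l.comp (Ten.inl c f))
  obtain ⟨Y, hY⟩ := ie_open hi hB ((hG.et (Ten.etale_inr g hc)).ie (hi.baseChange hB))
    (P := fun w => s w = 0) fun y'' => F.sep hs _ (by
      have a0 : ((y''.comp j).comp l).comp (Ten.inl c f) = (y''.comp i).comp (Ten.inl c g) :=
        congrArg y''.comp hB.comm.symm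
      obtain ⟨τ, t1, t2⟩ := h.ex OO (((y''.comp j).comp l).comp (Ten.inr c f))
        ((y''.comp i).comp (Ten.inr c g)) (by
          rw [RingHom.comp_assoc f, ← Ten.comm, ← RingHom.comp_assoc c, a0, RingHom.comp_assoc c,
            Ten.comm, RingHom.comp_assoc g])
      have a1 : (Ten.lift ((y''.comp j).comp l) τ t1.symm).comp k = y''.comp i := Ten.hom_ext
        (by rw [RingHom.comp_assoc, k1, ← RingHom.comp_assoc, Ten.lift_inl, a0])
        (by rw [RingHom.comp_assoc, k2, ← RingHom.comp_assoc, Ten.lift_inr, t2])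
      rw [← a1]
      refine p2 _ ?_
      rw [← RingHom.comp_apply, Ten.lift_inl]
      exact pnt_away_ne _)
  obtain ⟨β, hβ⟩ := pnt_away (Ten.lift y x hy) p1
  have a2 : (β.comp Y.d).comp Y.a = y := by
    rw [RingHom.comp_assoc, Y.comm, ← RingHom.comp_assoc, hβ, Ten.lift_inl]
  obtain ⟨ψ, q1, q2⟩ := Nr.push_et Y.et (Nr.of_forall (y := β.comp Y.d) (P := fun _ => True)
    fun _ => trivial)
  refine (pg_zero hc y hs).2 ⟨ψ, a2 ▸ q1, fun w hw => ?_⟩
  obtain ⟨u, hu, -⟩ := q2 (w.comp (Ten.inl c g)) hw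
  exact hY w u hu.symm

theorem push_ie_surj (hf : IE f) (hG : Good T) (h : FA.PO f g g' e) (F : Sys T) :
    ((F.can e).push h.comm.symm).Surj := by
  intro x v hv
  obtain ⟨W', _, c', z, s', hc', rfl, hs', rfl⟩ := pg_surj _ hv
  have hγ := hf.comp_etale hc'
  have hP : FA.PO g (c'.comp f) ((Ten.inr c' g').comp e) (Ten.inl c' g') :=
    (h.paste (Ten.po c' g')).symm
  have hi := hγ.baseChange hP
  obtain ⟨Y, t, ht, h1⟩ := F.ie_lift hi (hG.ie hi) hs'
  obtain ⟨X, b, U, j', hb, k1, k2⟩ := hγ.cofinal_po hP Y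
  obtain ⟨ω, ω1, ω2⟩ := k1.ex _ (Ten.inr U.a g) (Ten.inl U.a g) (Ten.comm _ _).symm
  have hs : rs (ω.comp b) t ∈ F.S (Ten.inr U.a g) :=
    F.res' _ (by rw [RingHom.comp_assoc, hb.1, ω1]) ht
  let k : Ten U.a g →+* Ten c' g' := Ten.lift ((Ten.inl c' g').comp U.d) ((Ten.inr c' g').comp e)
    (by rw [RingHom.comp_assoc, U.comm]; exact hP.comm.symm)
  have q1 : k.comp (Ten.inl U.a g) = (Ten.inl c' g').comp U.d := Ten.lift_inl ..
  have q2 : k.comp (Ten.inr U.a g) = (Ten.inr c' g').comp e := Ten.lift_inr ..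
  have q3 : k.comp ω = X.d := k1.uq _ _ _ (by rw [RingHom.comp_assoc, ω1, q2, X.comm])
    (by rw [RingHom.comp_assoc, ω2, q1, k2])
  refine ⟨pg g F U.a (z.comp U.d) (rs (ω.comp b) t), ?_, ?_⟩
  · have := (push g F).mem (pg_sec U.et hs) (z.comp U.d)
    rwa [RingHom.comp_assoc, U.comm] at this
  · rw [(F.can e).push_pg h.comm.symm U.et hc' U.d U.comm z hs k q1 q2]
    refine congrArg _ (funext fun w => ?_)
    rw [← h1 w, ← hb.2, ← q3]
    rfl

theorem H_push_ie (hT : AC T) (hG : Good T) (g : R →+* T) (F : Sys T) {f : R →+* R'} (hf : IE f)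
    (q : ℕ) (ξ : HH (q + 1) (push g F) f) : ξ = 0 := by
  have h := Ten.po f g
  have hi := hf.baseChange h.symm
  refine (Hmap_bij (q + 1) ((F.can _).push h.comm.symm).toHom (push_ie_inj hf hG h F)
    (push_ie_surj hf hG h F)).1 ?_
  rw [map_zero]
  exact H_push_ac (hT.ie hi) (hG.ie hi) _ _ q _

end BC

/-- The hull of `F`, acyclic after every ind-etale base change. -/
def hull (F : Sys R) : Sys R := push (toTR OO R) (F.pb (toTR OO R))

/-- The embedding in the hull. -/
def toHull (F : Sys R) : Hom F (hull F) := (F.can (toTR OO R)).adj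

theorem adj_inj {g : R →+* T} (hg : Sur g) (F : Sys R) : (F.can g).adj.Inj := fun x u hu h0 => by
  obtain ⟨τ, rfl⟩ := hg x
  have := (F.can g).eps_adj τ hu
  rw [h0, Mor.zero] at this
  exact this.symm

theorem toHull_inj (F : Sys R) : (toHull F).Inj := adj_inj sur_toTR F

theorem ses_hull (F : Sys R) : SES (toHull F) (toHull F).pr := (toHull F).ses_cok (toHull_inj F)

theorem H_hull (hR : Good R) (F : Sys R) {f : R →+* R'} (hf : IE f) (q : ℕ)
    (ξ : HH (q + 1) (hull F) f) : ξ = 0 :=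
  H_push_ie FA.ac_TR hR.tr _ _ hf q ξ

end

end Pool.Agent.Lib.MP_16ef92_ag.RS
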