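import Pool.Agent.Lib.MP_16ef92_ag.FA.TT
import Pool.Agent.Lib.MP_16ef92_ag.RS.Sys

/-! Sections over an ind-etale algebra come from a stage. -/

set_option autoImplicit false
set_option linter.unusedSectionVars false
set_option linter.unusedVariables false

namespace Pool.Agent.Lib.MP_16ef92_ag.RS

open FA (IE Stage AC TR toTR evTR)

noncomputable section

variable {R R' S S' V W : Type} [CommRing R] [CommRing R'] [CommRing S] [CommRing S'] [CommRing V]
  [CommRing W]

theorem Ten.po (a : R →+* V) (g : R →+* W) : FA.PO a g (Ten.inl a g) (Ten.inr a g) :=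
  ⟨Ten.comm a g, fun _ _ u v h => Ten.exists_lift u v h, fun _ _ _ _ => Ten.hom_ext⟩

theorem PO.fa {a : R →+* V} {g : R →+* W} {d : V →+* S} {e : W →+* S} (h : PO a g d e) :
    FA.PO a g d e := by
  have := (Ten.po a g).of_equiv (RingEquiv.ofBijective _ h.bij)
  have e1 : (RingEquiv.ofBijective _ h.bij).toRingHom = Ten.lift d e h.comm := rfl
  rwa [e1, Ten.lift_inl, Ten.lift_inr] at this

theorem po_of_fa {a : R →+* V} {g : R →+* W} {d : V →+* S} {e : W →+* S} (h : FA.PO a g d e) :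
    PO a g d e := by
  obtain ⟨u, h1, h2⟩ := (Ten.po a g).equiv h
  refine ⟨h.comm, ?_⟩
  rw [Ten.hom_ext (u := Ten.lift d e h.comm) (v := u.toRingHom) (by rw [h1, Ten.lift_inl])
    (by rw [h2, Ten.lift_inr])]
  exact u.bijective

theorem ie_algebraic {g : R →+* R'} (hg : IE g) {L : Type} [Field L] (z : R' →+* L) (r : R') :
    IsAlgebraic (z.comp g).range (z r) := by
  obtain ⟨U, w, hw⟩ := hg.lift fun _ : Unit => r
  let A := (z.comp g).range
  let K := FractionRing A
  let ι : K →+* L := IsFractionRing.lift (g := A.subtype) Subtype.val_injective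
  have hι : ι.comp (algebraMap A K) = A.subtype :=
    RingHom.ext fun x => IsFractionRing.lift_algebraMap (g := A.subtype) Subtype.val_injective x
  obtain ⟨X, _, i, j, h⟩ := FA.exists_po ((algebraMap A K).comp (z.comp g).rangeRestrict) U.a
  obtain ⟨y, y1, y2⟩ := h.ex L ι (z.comp U.d) (by
    rw [← RingHom.comp_assoc, hι, RingHom.comp_assoc, U.comm]; rfl)
  let := i.toAlgebra
  let := ι.toAlgebra
  have : Algebra.Etale K X := h.etale U.et
  have := Algebra.FormallyUnramified.finite_of_free K X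
  have : IsScalarTower A K L := IsScalarTower.of_algebraMap_eq' hι.symm
  let y' : X →ₐ[K] L := { y with commutes' := RingHom.congr_fun y1 }
  have h1 : IsIntegral K (y' (j (w ()))) := (Algebra.IsIntegral.isIntegral (R := K) _).map y'
  rw [← hw ()]
  exact (IsFractionRing.isAlgebraic_iff A K L).2
    ((RingHom.congr_fun y2 (w ()) : y' (j (w ())) = z (U.d (w ()))) ▸ h1.isAlgebraic)

variable [Bg]

theorem Good.of_algebraic (h : Good R) (g : R →+* R') (ha : ∀ (L : Type) [Field L] (z : R' →+* L)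
    (r : R'), IsAlgebraic (z.comp g).range (z r)) : Good R' := by
  intro q hq
  let z : R' →+* q.ResidueField := algebraMap _ _
  let w := z.comp g
  obtain ⟨x, hx⟩ := h (RingHom.ker w) (RingHom.ker_isPrime w)
  let A := w.range
  let x' : A →+* OO := w.rangeRestrict.liftOfSurjective w.rangeRestrict_surjective
    ⟨x, by rw [RingHom.ker_rangeRestrict, hx]⟩
  have hx' : Function.Injective x' := (injective_iff_map_eq_zero _).2 fun a ha => by
    obtain ⟨r, rfl⟩ := w.rangeRestrict_surjective a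
    have : x r = 0 := (RingHom.liftOfRightInverse_comp_apply _ _ _ _ r).symm.trans ha
    exact Subtype.ext (RingHom.mem_ker.1 (hx ▸ RingHom.mem_ker.2 this))
  let := x'.toAlgebra
  let B := Subalgebra.algebraicClosure A q.ResidueField
  have : FaithfulSMul A OO := (faithfulSMul_iff_algebraMap_injective _ _).2 hx'
  let φ : B →ₐ[A] OO := IsAlgClosed.lift
  let z' : R' →+* B := z.codRestrict B.toSubring fun r => ha _ z r
  refine ⟨φ.toRingHom.comp z', ?_⟩
  have hφ : Function.Injective φ.toRingHom := (injective_iff_map_eq_zero _).2 fun b hb => by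
    by_contra h0
    have h1 : b * ⟨b.1⁻¹, IsAlgebraic.inv b.2⟩ = 1 :=
      Subtype.ext (mul_inv_cancel₀ fun h => h0 (Subtype.ext h))
    have := congrArg φ.toRingHom h1
    rw [map_mul, hb, zero_mul, map_one] at this
    exact zero_ne_one this
  have hB : Function.Injective B.val.toRingHom := Subtype.val_injective
  rw [RingHom.ker_comp_of_injective _ hφ, ← RingHom.ker_comp_of_injective z' hB]
  exact Ideal.ker_algebraMap_residueField q

theorem Good.ie (h : Good R) {g : R →+* R'} (hg : IE g) : Good R' :=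
  h.of_algebraic g fun _ _ => ie_algebraic hg

theorem Good.tr (h : Good R) : Good (TR OO R) := FA.good_TR h

theorem sur_toTR : Sur (toTR OO R) := fun x => ⟨evTR x, rfl⟩

/-- A property that holds near every point that comes from the limit holds at all points that
come from some stage. -/
theorem ie_open {g : R →+* R'} (hg : IE g) {f : R →+* S} {i : S →+* S'} {j : R' →+* S'}
    (h : FA.PO f g i j) (hS : Good S') {P : Pnt S → Prop} (hP : ∀ y : Pnt S', Nr (y.comp i) P) :
    ∃ U : Stage g, ∀ (x : Pnt S) (u : Pnt U.W), x.comp f = u.comp U.a → P x := by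
  choose φ h1 h2 using hP
  obtain ⟨s, hs⟩ := hS.fin (fun y => i (φ y)) h1
  obtain ⟨c, hc⟩ : ∃ c : s → S', ∑ y, c y * i (φ y.1) = 1 := by
    refine Ideal.mem_span_range_iff_exists_fun.1 ?_
    rw [show (Set.range fun y : s => i (φ y.1)) = (fun y => i (φ y)) '' s from
      (Set.image_eq_range (fun y => i (φ y)) (s : Set (Pnt S'))).symm, hs]
    trivial
  choose U hU using fun y : s => hg.lift_po h (c y)
  obtain ⟨U', b, hb⟩ := Stage.exists_ub U
  obtain ⟨X, j', k1, k2, k3⟩ := IE.exists_stage_po h U'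
  choose w hw using fun y => hU y X.W X.a (j'.comp (b y)) X.d X.comm
    (by rw [← RingHom.comp_assoc, k2, RingHom.comp_assoc, (hb y).2])
  have e : ∀ r, X.d (X.a r) = i r := RingHom.congr_fun X.comm
  obtain ⟨Y, hY⟩ := (hg.stage U').kill_po k3 (s := ∑ y, w y * X.a (φ y.1) - 1)
    (by simp only [map_sub, map_sum, map_mul, hw, e, hc, map_one, sub_self])
  refine ⟨U'.up Y, fun x u hxu => ?_⟩
  obtain ⟨v, v1, v2⟩ := k1.ex OO x (u.comp Y.a) hxu
  have := hY OO v u v2
  have e' : ∀ r, v (X.a r) = x r := RingHom.congr_fun v1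
  simp only [map_sub, map_sum, map_mul, e', map_one, sub_eq_zero] at this
  obtain ⟨y, -, hy⟩ := Finset.exists_ne_zero_of_sum_ne_zero (this ▸ one_ne_zero)
  exact h2 y.1 x (right_ne_zero_of_mul hy)

variable {g : R →+* R'}

theorem ie_open_le (hg : IE g) (hR : Good R') (U : Stage g) {P : Pnt U.W → Prop}
    (hP : ∀ y : Pnt R', Nr (y.comp U.d) P) :
    ∃ (X : Stage g) (b : U.W →+* X.W), U.Le X b ∧ ∀ u : Pnt X.W, P (u.comp b) := by
  obtain ⟨X, hX⟩ := ie_open (hg.stage U) (FA.PO.id_left U.d) hR hP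
  exact ⟨U.up X, X.a, U.le_up X, fun u => hX _ u rfl⟩

/-- A section that vanishes in the limit vanishes at a stage. -/
theorem Sys.ie_kill (F : Sys R) (hg : IE g) (hR : Good R') (U : Stage g) {t : Pnt U.W → F.A}
    (ht : t ∈ F.S U.a) (h : ∀ y : Pnt R', t (y.comp U.d) = 0) :
    ∃ (X : Stage g) (b : U.W →+* X.W), U.Le X b ∧ ∀ u : Pnt X.W, t (u.comp b) = 0 :=
  ie_open_le hg hR U fun y => F.sep ht _ (h y)

/-- The local step: near a point, a section over the limit comes from an etale algebra over a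
stage. -/
theorem Sys.ie_loc (F : Sys R) (hg : IE g) {s : Pnt R' → F.A} (hs : s ∈ F.S g) (y : Pnt R') :
    ∃ (U : Stage g) (X : Type) (_ : CommRing X) (e : U.W →+* X) (t : Pnt X → F.A), e.Etale ∧
      t ∈ F.S (e.comp U.a) ∧ (∃ v : Pnt X, v.comp e = y.comp U.d) ∧
      ∀ (v : Pnt X) (y' : Pnt R'), v.comp e = y'.comp U.d → t v = s y' := by
  obtain ⟨W, _, c, y₀, t, hc, hy, ht, hty⟩ := F.stalk _ _ (F.mem hs y)
  obtain ⟨f, f1, f2⟩ := F.sep' (F.res' (Ten.inl c g) rfl ht) (F.res' (Ten.inr c g)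
    (Ten.comm c g).symm hs) (y := Ten.lift y₀ y hy) (by
      rw [rs_apply, rs_apply, Ten.lift_inl, Ten.lift_inr, hty])
  obtain ⟨U, hU⟩ := hg.lift_po (Ten.po c g) f
  obtain ⟨X, j', k1, k2, k3⟩ := IE.exists_stage_po (Ten.po c g) U
  obtain ⟨f', rfl⟩ := hU X.W X.a j' X.d X.comm k2
  let l := algebraMap X.W (Localization.Away f')
  refine ⟨U, Localization.Away f', inferInstance, l.comp j', rs (l.comp X.a) t,
    FA.etale_comp (k1.symm.etale hc) (FA.etale_away _), F.res' _ ?_ ht, ?_, fun v y' hv => ?_⟩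
  · rw [RingHom.comp_assoc, k1.comm, RingHom.comp_assoc]
  · obtain ⟨v, hv⟩ := pnt_away ((Ten.lift y₀ y hy).comp X.d) f1
    refine ⟨v, ?_⟩
    rw [← RingHom.comp_assoc, hv, RingHom.comp_assoc, k2, ← RingHom.comp_assoc, Ten.lift_inr]
  · obtain ⟨z, z1, z2⟩ := k3.ex OO (v.comp l) y' hv
    have : rs (Ten.inl c g) t z = rs (Ten.inr c g) s z := f2 z (by
      rw [show z (X.d f') = v.comp l f' from RingHom.congr_fun z1 f']
      exact pnt_away_ne v)
    rw [rs_apply, rs_apply, z2, ← X.comm, ← RingHom.comp_assoc, z1] at this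
    exact this

/-- Every section over the limit comes from a stage. -/
theorem Sys.ie_lift (F : Sys R) (hg : IE g) (hR : Good R') {s : Pnt R' → F.A} (hs : s ∈ F.S g) :
    ∃ (U : Stage g) (t : Pnt U.W → F.A), t ∈ F.S U.a ∧ ∀ y : Pnt R', t (y.comp U.d) = s y := by
  choose U X _ e t h1 h2 h3 h4 using F.ie_loc hg hs
  have a1 : ∀ y : Pnt R', Nr (y.comp (U y).d) fun u => ∃ v : Pnt (X y), v.comp (e y) = u := by
    intro y
    obtain ⟨v, hv⟩ := h3 y
    exact hv ▸ (Nr.push_et (h1 y) (Nr.of_forall (y := v) (P := fun _ => True)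
      fun _ => trivial)).mono fun _ h => h.imp fun _ h => h.1
  choose φ p1 p2 using a1
  obtain ⟨σ, hσ⟩ := hR.fin (fun y => (U y).d (φ y)) p1
  obtain ⟨U₁, b, hb⟩ := Stage.exists_ub fun y : σ => U y.1
  have hb2 : ∀ (y : σ) (y' : Pnt R'), (y'.comp U₁.d).comp (b y) = y'.comp (U y.1).d :=
    fun y y' => by rw [RingHom.comp_assoc, (hb y).2]
  obtain ⟨U₂, b₂, hb₂, c₂⟩ := ie_open_le hg hR U₁
    (P := fun u => ∃ y : σ, u.comp (b y) (φ y.1) ≠ 0) fun y' => by
      by_contra hn
      refine (RingHom.ker_ne_top y') (top_le_iff.1 (hσ ▸ Ideal.span_le.2 ?_))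
      rintro _ ⟨y, hy, rfl⟩
      by_contra h0
      refine hn ⟨b ⟨y, hy⟩ (φ y), ?_, fun u hu => ⟨⟨y, hy⟩, hu⟩⟩
      rw [← RingHom.comp_apply (y'.comp U₁.d), hb2]
      exact h0
  have a2 : ∀ p : σ × σ, ∃ Y : Stage U₁.d, ∀ (u : Pnt Y.W) (v : Pnt (X p.1.1)) (v' : Pnt (X p.2.1)),
      v.comp (e _) = (u.comp Y.a).comp (b p.1) → v'.comp (e _) = (u.comp Y.a).comp (b p.2) →
      t _ v = t _ v' := by
    rintro ⟨y, y'⟩
    obtain ⟨A, _, i, j, hA⟩ := FA.exists_po (b y) (e y.1)
    obtain ⟨A', _, i', j', hA'⟩ := FA.exists_po (b y') (e y'.1)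
    obtain ⟨B, _, k, k', hB⟩ := FA.exists_po i i'
    obtain ⟨B', _, m, m', hB'⟩ := FA.exists_po (k.comp i) U₁.d
    have hG : Good B' := hR.et (hB'.symm.etale (FA.etale_comp (hA.etale (h1 _))
      (hB.etale (hA'.etale (h1 _)))))
    have s1 : rs (k.comp j) (t y.1) ∈ F.S ((k.comp i).comp U₁.a) := F.res' _ (by
      rw [← (hb y).1]
      exact congrArg (fun w => k.comp (RingHom.comp w (U y.1).a)) hA.comm.symm) (h2 _)
    have s2 : rs (k'.comp j') (t y'.1) ∈ F.S ((k.comp i).comp U₁.a) := F.res' _ (by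
      rw [← (hb y').1, hB.comm]
      exact congrArg (fun w => k'.comp (RingHom.comp w (U y'.1).a)) hA'.comm.symm) (h2 _)
    obtain ⟨Y, hY⟩ := ie_open (hg.stage U₁) hB' hG fun z => F.sep' s1 s2 (y := z.comp m) (by
      rw [rs_apply, rs_apply, h4 _ _ (z.comp m'), h4 _ _ (z.comp m')]
      · rw [← hb2, RingHom.comp_assoc U₁.d, ← hB'.comm, hB.comm]
        exact congrArg (fun w => (z.comp m).comp (k'.comp w)) hA'.comm.symm
      · rw [← hb2, RingHom.comp_assoc U₁.d, ← hB'.comm]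
        exact congrArg (fun w => (z.comp m).comp (k.comp w)) hA.comm.symm)
    refine ⟨Y, fun u v v' hv hv' => ?_⟩
    obtain ⟨α, α1, α2⟩ := hA.ex OO _ v hv.symm
    obtain ⟨α', α1', α2'⟩ := hA'.ex OO _ v' hv'.symm
    obtain ⟨β, β1, β2⟩ := hB.ex OO α α' (α1.trans α1'.symm)
    have := hY β u (by rw [← RingHom.comp_assoc, β1, α1])
    rwa [rs_apply, rs_apply, ← RingHom.comp_assoc, ← RingHom.comp_assoc, β1, β2, α2, α2'] at this
  choose Y hY using a2
  obtain ⟨Y₁, b₃, hb₃⟩ := Stage.exists_ub Y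
  obtain ⟨Z, b₄, b₅, hb₄, hb₅⟩ := (Stage.rel hb₂).exists_ub₂ Y₁
  have c1 : ∀ u : Pnt Z.W, ∃ (y : σ) (v : Pnt (X y.1)), v.comp (e _) = (u.comp Z.a).comp (b y) := by
    intro u
    obtain ⟨y, hy⟩ := c₂ (u.comp b₄)
    exact ⟨y, p2 _ _ (by rw [← hb₄.1]; exact hy)⟩
  choose yy vv hvv using c1
  have c2 : ∀ (u : Pnt Z.W) (y : σ) (v : Pnt (X y.1)), v.comp (e _) = (u.comp Z.a).comp (b y) →
      t _ (vv u) = t _ v := fun u y v hv => by
    have q : (u.comp (b₅.comp (b₃ (yy u, y)))).comp (Y (yy u, y)).a = u.comp Z.a := by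
      rw [RingHom.comp_assoc, ((hb₃ _).trans hb₅).1]
    exact hY (yy u, y) (u.comp (b₅.comp (b₃ _))) _ v (q ▸ hvv u) (q ▸ hv)
  refine ⟨U₁.up Z, fun u => t _ (vv u), F.loc fun u => ?_, fun y' => h4 _ _ y' ?_⟩
  · obtain ⟨A, _, i, j, hA⟩ := FA.exists_po (Z.a.comp (b (yy u))) (e (yy u).1)
    obtain ⟨α, α1, -⟩ := hA.ex OO u (vv u) (hvv u).symm
    refine ⟨A, inferInstance, i, α, hA.etale (h1 _), α1, ?_⟩
    have : rs i (fun u => t _ (vv u)) = rs j (t (yy u).1) := funext fun z =>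
      c2 _ (yy u) _ (by rw [RingHom.comp_assoc, ← hA.comm]; rfl)
    refine this ▸ F.res' j ?_ (h2 _)
    rw [← RingHom.comp_assoc, ← hA.comm, RingHom.comp_assoc, RingHom.comp_assoc, (hb _).1]
    rfl
  · rw [hvv, ← hb2]
    exact congrArg (fun w => RingHom.comp w (b _))
      ((RingHom.comp_assoc _ _ _).trans (congrArg y'.comp Z.comm))

end

end Pool.Agent.Lib.MP_16ef92_ag.RS
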